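import Pool.Agent.helper47.CL.SpecD

/-!
# MP_d9d598_co, project CL, part D: the theorem for graphs
-/

set_option autoImplicit false

namespace Pool.Agent.helper41.CL

open Finset

theorem TC_Gr {n : ℕ} (G : SimpleGraph (Fin n)) : Gr (univ : Finset (Fin n)) (NE G) := by
  classical
  intro e he
  unfold NE at he
  have h := (@mem_filter _ _ (_) _ _).mp he
  exact ⟨subset_univ e, (mem_powersetCard.mp h.1).2⟩

theorem TC_not {n : ℕ} (G : SimpleGraph (Fin n)) (e : Finset (Fin n)) (he : e ∈ NE G) :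
    ¬ G.IsClique (e : Set (Fin n)) := by
  classical
  unfold NE at he
  exact ((@mem_filter _ _ (_) _ _).mp he).2

theorem TC (h1 : NM2_stmt) (h2 : TA_stmt) (h3 : TB_stmt) (h4 : WA_stmt) (h5 : WC_stmt)
    (h6 : ZB_stmt) : TC_stmt := by
  intro q r G inst hr hrq hE hv
  have hcard : #(univ : Finset (Fin (2 * q + r))) = 2 * q + r := by
    rw [card_univ, Fintype.card_fin]
  have hNE : #(NE G) + 1 = q + 2 * r := by
    have ha := h4 (2 * q + r) G
    have hb := h2 q r (by omega) hrq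
    omega
  have hGr := TC_Gr G
  have hC := (h5 (2 * q + r) (q + 1) G (by omega)).1
  have hZ := h6 (Fin (2 * q + r)) univ (NE G) (2 * q + r - (q + 1)) hGr
    (by rw [hcard]; omega)
  have hk : #(univ : Finset (Fin (2 * q + r))) - (2 * q + r - (q + 1)) = q + 1 := by
    rw [hcard]; omega
  rw [hk, hC] at hZ
  have hHH : HH (univ : Finset (Fin (2 * q + r))) (NE G) (q + 1) := by
    right
    intro x _
    obtain ⟨s, hs, hxs⟩ := hv x
    refine ⟨s, ?_, hxs⟩
    unfold ind
    refine (@mem_filter _ _ (_) _ _).mpr ⟨mem_powersetCard.mpr ⟨subset_univ s, hs.card_eq⟩, ?_⟩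
    intro e he hes
    exact TC_not G e he (hs.isClique.subset (by exact_mod_cast hes))
  have hS := h1 (2 * q + r) (Fin (2 * q + r)) univ (NE G) q r hGr hcard (le_of_eq hcard)
    (by omega) hrq (by omega) hHH
  rw [← hZ] at hS
  rw [h3 q r hr hrq]
  obtain ⟨a, rfl⟩ : ∃ a, r = a + 2 := ⟨r - 2, by omega⟩
  obtain ⟨b, rfl⟩ : ∃ b, q = b + (a + 2) := ⟨q - (a + 2), by omega⟩
  have e1 : a + 2 - 2 = a := by omega
  have e2 : b + (a + 2) - (a + 2) = b := by omega
  rw [e1, e2]
  have hpos : 0 < 9 * 2 ^ (a + 2) := by positivity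
  refine Nat.le_of_mul_le_mul_left ?_ hpos
  refine le_trans (le_of_eq ?_) hS
  ring

end Pool.Agent.helper41.CL
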